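import Pool.Agent.H84.SF.Loc

/-!
# MP_70ba79_ag: the kernel of the generic point of `G = 0` (TAK)
-/

set_option autoImplicit false

namespace Pool.Agent.H19.SFC

open MvPolynomial SC
open Pool.Agent.H27.LV (ge deg poleOrder canDeg)
open Pool.Agent.H92.OD
open Pool.Agent.H84.SM (y1 y2 Near)
open Pool.Agent.H84.SF

theorem uu_pow (k : Type) [Field k] (j : ℕ) : uu k ^ j = sg (j : ℚ) (1 : k) := by
  induction j with
  | zero =>
    rw [pow_zero, Nat.cast_zero]
    exact sg_zero_one.symm
  | succ j ih =>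
    rw [pow_succ, ih]
    unfold uu
    rw [sg_mul_sg, mul_one]
    push_cast
    rfl

/-- the coefficients of a polynomial in `u` -/
theorem cf_aeval (k : Type) [Field k] (p : Polynomial k) (i : ℕ) :
    cf (Polynomial.aeval (uu k) p) (i : ℚ) = p.coeff i := by
  rw [Polynomial.aeval_eq_sum_range, cf_sum]
  have h1 : ∀ j : ℕ, cf (p.coeff j • uu k ^ j) (i : ℚ) = if i = j then p.coeff j else 0 := by
    intro j
    rw [smul_HS, uu_pow, sg_mul_sg, cf_sg]
    by_cases h : i = j
    · subst h
      simp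
    · have h2 : ¬ ((i : ℚ) = 0 + (j : ℚ)) := by
        rw [zero_add]
        exact_mod_cast h
      rw [if_neg h2, if_neg h]
  rw [Finset.sum_congr rfl fun j _ => h1 j, Finset.sum_ite_eq]
  split_ifs with h
  · rfl
  · rw [Finset.mem_range] at h
    exact (Polynomial.coeff_eq_zero_of_natDegree_lt (by omega)).symm

theorem tak_local {k O : Type} [Field k] [CommRing O] [Algebra k O] {ε : O →ₐ[k] k}
    (hu : ∀ h, ε h ≠ 0 → IsUnit h) : IsLocalRing O := by
  have hnt : Nontrivial O := by
    refine ⟨⟨1, 0, fun h => ?_⟩⟩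
    have h1 := congrArg ε h
    rw [map_one, map_zero] at h1
    exact one_ne_zero h1
  refine IsLocalRing.of_nonunits_add fun a b ha hb => ?_
  have h1 : ∀ a ∈ nonunits O, ε a = 0 := by
    intro a ha
    by_contra h
    exact ha (hu a h)
  intro h
  have h2 : IsUnit (ε (a + b)) := h.map ε
  rw [map_add, h1 a ha, h1 b hb, add_zero] at h2
  exact not_isUnit_zero h2

theorem pf_TAK (hAPX : T_APX) (hREM : T_REM) : T_TAK := by
  intro k O _ _ _ _ ε X G dX dG hF c hc hcG h hh
  have hloc : IsLocalRing O := tak_local hF.unit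
  have hstep : ∀ N : ℕ, ∃ r ∈ Ideal.span {X, G} ^ (N + 1), h - r ∈ Ideal.span {G} := by
    intro N
    obtain ⟨P, r, hr, hP⟩ := hAPX k O ε X G dX dG hF (N + 1) h
    obtain ⟨p, hp⟩ : ∃ p : Polynomial k, p = aeval ![Polynomial.X, 0] P := ⟨_, rfl⟩
    have hcp : Polynomial.aeval (uu k) p = c (aeval ![X, G] P) := by
      have h1 : (Polynomial.aeval (uu k)).comp (aeval ![Polynomial.X, 0]) =
          c.comp (aeval ![X, G] : MvPolynomial (Fin 2) k →ₐ[k] O) := by
        apply MvPolynomial.algHom_ext
        intro i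
        rw [AlgHom.comp_apply, AlgHom.comp_apply, aeval_X, aeval_X]
        fin_cases i
        · simp [hc.eqX]
        · simp [hcG]
      rw [hp]
      exact DFunLike.congr_fun h1 P
    have hcr : c r = -(Polynomial.aeval (uu k) p) := by
      rw [hcp]
      have h1 := congrArg c hP
      rw [hh, map_add] at h1
      linear_combination -h1
    have hge : geO (((N : ℕ) + 1 : ℚ) * 1) (c r) := by
      refine (hREM k O ε X G dX dG hF N r hr).2.2 c hc 1 one_pos le_rfl ?_
      rw [hcG]
      exact geO_zero 1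
    have hco : ∀ i < N + 1, p.coeff i = 0 := by
      intro i hi
      have h1 := hge (i : ℚ) (by
        rw [mul_one]
        exact_mod_cast hi)
      rw [hcr, cf_neg, cf_aeval, neg_eq_zero] at h1
      exact h1
    obtain ⟨q, hq⟩ := Polynomial.X_pow_dvd_iff.2 hco
    have hXm : X ∈ Ideal.span {X, G} := Ideal.subset_span (Set.mem_insert _ _)
    have hpX : Polynomial.aeval X p ∈ Ideal.span {X, G} ^ (N + 1) := by
      rw [hq, map_mul, map_pow, Polynomial.aeval_X]
      exact Ideal.mul_mem_right _ _ (Ideal.pow_mem_pow hXm _)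
    have hdiff : aeval ![X, G] P - Polynomial.aeval X p ∈ Ideal.span {G} := by
      have h1 : (Ideal.Quotient.mkₐ k (Ideal.span {G})).comp
          (aeval ![X, G] : MvPolynomial (Fin 2) k →ₐ[k] O) =
          (Ideal.Quotient.mkₐ k (Ideal.span {G})).comp
            ((Polynomial.aeval X).comp (aeval ![Polynomial.X, 0])) := by
        apply MvPolynomial.algHom_ext
        intro i
        rw [AlgHom.comp_apply, AlgHom.comp_apply, AlgHom.comp_apply, aeval_X, aeval_X]
        fin_cases i
        · simp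
        · change Ideal.Quotient.mk _ G = Ideal.Quotient.mk _ (Polynomial.aeval X (0 : Polynomial k))
          rw [map_zero, map_zero]
          exact Ideal.Quotient.eq_zero_iff_mem.2 (Ideal.mem_span_singleton_self G)
      have h2 := DFunLike.congr_fun h1 P
      rw [AlgHom.comp_apply, AlgHom.comp_apply, AlgHom.comp_apply, ← hp] at h2
      exact (Ideal.Quotient.mk_eq_mk_iff_sub_mem _ _).1 h2
    refine ⟨Polynomial.aeval X p + r, Ideal.add_mem _ hpX hr, ?_⟩
    have h3 : h - (Polynomial.aeval X p + r) = aeval ![X, G] P - Polynomial.aeval X p := by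
      rw [hP]
      ring
    rw [h3]
    exact hdiff
  have hmt : (Ideal.span {X, G} : Ideal O) ≠ ⊤ := by
    intro h1
    have h2 : (1 : O) ∈ Ideal.span {X, G} := by
      rw [h1]
      exact Submodule.mem_top
    rw [Ideal.mem_span_pair] at h2
    obtain ⟨a, b, hab⟩ := h2
    have h3 := (hF.max 1).2 ⟨a, b, hab.symm⟩
    rw [map_one] at h3
    exact one_ne_zero h3
  have hK := Ideal.iInf_pow_smul_eq_bot_of_isLocalRing (M := O ⧸ (Ideal.span {G} : Ideal O))
    (Ideal.span {X, G} : Ideal O) hmt
  have hmem : Ideal.Quotient.mk (Ideal.span {G}) h ∈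
      (⨅ i : ℕ, (Ideal.span {X, G} : Ideal O) ^ i •
        (⊤ : Submodule O (O ⧸ (Ideal.span {G} : Ideal O)))) := by
    rw [Submodule.mem_iInf]
    intro i
    obtain ⟨r, hr, hhr⟩ := hstep i
    have h1 : Ideal.Quotient.mk (Ideal.span {G}) h =
        r • (Ideal.Quotient.mk (Ideal.span {G}) (1 : O)) := by
      rw [Algebra.smul_def, map_one, mul_one]
      exact (Ideal.Quotient.mk_eq_mk_iff_sub_mem _ _).2 hhr
    rw [h1]
    exact Submodule.smul_mem_smul (Ideal.pow_le_pow_right (Nat.le_succ i) hr) Submodule.mem_top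
  rw [hK, Submodule.mem_bot] at hmem
  exact Ideal.mem_span_singleton.1 (Ideal.Quotient.eq_zero_iff_mem.1 hmem)

end Pool.Agent.H19.SFC
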