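import Pool.Agent.H84.SF.Loc
import Pool.Agent.H27.LV.Curve
import Pool.Agent.H3.OD.Asm

/-!
# MP_70ba79_ag: contact of a solution with the curve `G = 0`, for a frame with `v (X) ≤ v (G)` (LC1)
-/

set_option autoImplicit false

namespace Pool.Agent.H19.SFC

open MvPolynomial SC
open Pool.Agent.H27.LV (ge deg poleOrder canDeg)
open Pool.Agent.H92.OD hiding T_TAY
open Pool.Agent.H84.SM (y1 y2 Near)
open Pool.Agent.H84.SF

theorem pf_LC1 (hTAY : T_TAY) (hTAK : T_TAK) (hEXD : T_EXD) (hRAMS : T_RAMS) (hSOK : T_SOK)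
    (hEQC : T_EQC) : T_LC1 := by
  intro k O _ _ _ _ _ _ _ ε X G dX dG hF A b hb0 hA
  obtain ⟨c, hc, hcG, hcl⟩ := hTAY k O ε X G dX dG hF
  have hcA : c A ≠ 0 := fun h => hA (hTAK k O ε X G dX dG hF c hc hcG A h)
  have hcb : c (b 0) = 0 := by
    obtain ⟨q, hq⟩ := hb0
    rw [hq, map_mul, hcG, zero_mul]
  obtain ⟨r, hr⟩ := exists_IsO hcA
  obtain ⟨m, hm⟩ := (hcl A).1 r hr.1
  have hr0 : 0 ≤ r := by
    by_contra h
    push Not at h
    exact hr.1 (hc.int A r h)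
  obtain ⟨a, ha⟩ : ∃ a : ℕ, r = a := by
    rw [Nat.cast_one, mul_one] at hm
    have hm0 : 0 ≤ m := by
      rw [hm] at hr0
      exact_mod_cast hr0
    refine ⟨m.toNat, ?_⟩
    rw [hm]
    have h1 := Int.toNat_of_nonneg hm0
    exact_mod_cast h1.symm
  rw [ha] at hr
  have haA : ε A ≠ 0 → a = 0 := by
    intro h
    by_contra h0
    have h1 : (0 : ℚ) < a := by exact_mod_cast Nat.pos_of_ne_zero h0
    have h2 := hr.2 0 h1
    rw [(hcl A).2] at h2
    exact h h2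
  obtain ⟨N, hN, hN0, hR⟩ := hRAMS k O ε X G dX dG hF A b a c hc hcG (fun h => (hcl h).1) hcb hr
  refine ⟨N * N, fun h => by rw [hN0 (haA h)], ?_⟩
  intro K _ _ _ htr D hD x v hx0 hx1 hG hA1 hX hle hadj hE
  have hεX : ε X = 0 := (hF.max X).2 ⟨1, 0, by ring⟩
  have hXo : 1 ≤ v.ord (x X) := (hx1 X hεX).resolve_left hX
  obtain ⟨n, hn⟩ : ∃ n : ℕ, v.ord (x X) = n :=
    ⟨(v.ord (x X)).toNat, (Int.toNat_of_nonneg (by omega)).symm⟩
  have hn0 : 0 < n := by
    rw [hn] at hXo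
    exact_mod_cast hXo
  have hnQ : (0 : ℚ) < n := by exact_mod_cast hn0
  have hDX : D (x X) ≠ 0 := by
    intro h
    obtain ⟨e, he⟩ := Pool.Agent.H27.LV.ker k K htr D hD (x X) h
    rw [← he, v.ord_base] at hXo
    omega
  obtain ⟨D1, hD1⟩ : ∃ D1 : Derivation k K K, D1 = (x X / D (x X)) • D := ⟨_, rfl⟩
  have hD1X : D1 (x X) = x X := by
    rw [hD1]
    show x X / D (x X) * D (x X) = x X
    exact div_mul_cancel₀ _ hDX
  have hE1 : EqK D1 A b X G x := by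
    rw [hD1]
    exact hEQC k O K X G A b x D _ hE
  obtain ⟨φ, hφu, hφE, hφD⟩ := Pool.Agent.H3.OD.brg k K htr v (x X) n hn0 hn
  have hSol : SolO A b G (φ.comp x) := hSOK k O K X G A b x D1 hD1X hE1 φ hφu (hφD D1 hD1X)
  obtain ⟨y, hy⟩ : ∃ y, y = φ.comp x := ⟨_, rfl⟩
  have hyx : ∀ h, y h = φ (x h) := fun h => by rw [hy]; rfl
  rw [← hy] at hSol
  by_cases hcase : v.ord (x G) ≤ v.ord (x A)
  · exact Or.inl hcase
  right
  push Not at hcase
  obtain ⟨μ, hμ⟩ : ∃ μ : ℚ, μ = (v.ord (x G) : ℚ) / n := ⟨_, rfl⟩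
  have hyG : IsO (y G) μ := by
    rw [hyx, hμ]
    exact hφE.ord _ hG
  have hyA : IsO (y A) ((v.ord (x A) : ℚ) / n) := by
    rw [hyx]
    exact hφE.ord _ hA1
  have hμ2 : (v.ord (x G) : ℚ) = μ * n := by rw [hμ, div_mul_cancel₀ _ hnQ.ne']
  have hμ1 : 1 ≤ μ := by
    rw [hμ, le_div_iff₀ hnQ, one_mul]
    rw [hn] at hle
    exact_mod_cast hle
  have hAμ : (v.ord (x A) : ℚ) / n < μ := by
    rw [hμ, div_lt_div_iff_of_pos_right hnQ]
    exact_mod_cast hcase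
  have hPy : Pnt X G y := by
    refine ⟨by rw [hyx, hφu], ⟨μ, by linarith, hyG.2⟩, fun h => ?_⟩
    rw [hyx]
    by_cases h0 : x h = 0
    · rw [h0, map_zero]
      exact geO_zero 0
    · refine geO_mono (hφE.ord _ h0).2 ?_
      have h1 := (hx0 h).resolve_left h0
      have h2 : (0 : ℚ) ≤ v.ord (x h) := by exact_mod_cast h1
      positivity
  obtain ⟨R, hR0, hR1⟩ := hEXD k O ε X G dX dG hF c y hc hPy A
  rw [hcG, sub_zero] at hR1
  have hdiff : geO μ (y A - c A) := by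
    have e : y A - c A = y G * c (dG A) + y G ^ 2 * R := by
      rw [hR1]
      ring
    rw [e]
    refine geO_add ?_ ?_
    · have h1 := geO_mul hyG.2 (hc.int (dG A))
      rwa [add_zero] at h1
    · have h1 := geO_mul (geO_pow hyG.2 2) hR0
      refine geO_mono h1 ?_
      push_cast
      linarith
  have haμ : (a : ℚ) < μ := by
    have h1 := (hyA.of_sub hdiff hAμ).1
    rw [hr.unique h1]
    exact hAμ
  have hnear : Near a (y G) := ⟨geO_mono hyG.2 hμ1, μ, haμ, hyG.2⟩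
  obtain ⟨hl, ho⟩ := hR y hPy hnear ⟨n, hn0, fun h => by rw [hyx]; exact hφE.lat _⟩ hSol
  have hμN := ho μ hyG
  obtain ⟨L, hL⟩ := Pool.Agent.H34.OD2.pf_LTN k N hN
  have hall : ∀ z : K, φ z ∈ L := by
    intro z
    have h4 : IntermediateField.adjoin k (Set.range x) ≤ L.comap φ := by
      rw [IntermediateField.adjoin_le_iff]
      rintro _ ⟨i, rfl⟩
      show φ (x i) ∈ L
      rw [← hyx]
      exact (hL _).2 (hl i)
    rw [hadj] at h4
    exact h4 IntermediateField.mem_top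
  have h4 := hφE.ord v.unif v.unif_ne_zero
  rw [v.ord_unif] at h4
  obtain ⟨q, hq⟩ := (hL _).1 (hall v.unif) _ h4.1
  have h5 : (N : ℤ) = q * n := by
    have h6 : (N : ℚ) = q * n := by
      rw [← hq]
      field_simp
      push_cast
      ring
    exact_mod_cast h6
  have hdvd : (n : ℤ) ∣ (N : ℤ) := ⟨q, by rw [h5]; ring⟩
  have h7 : (n : ℤ) ≤ (N : ℤ) := Int.le_of_dvd (by exact_mod_cast hN) hdvd
  have h8 : (v.ord (x G) : ℚ) ≤ N * N := by
    rw [hμ2]
    have h9 : (n : ℚ) ≤ N := by exact_mod_cast h7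
    exact mul_le_mul hμN h9 hnQ.le (Nat.cast_nonneg N)
  exact_mod_cast h8

end Pool.Agent.H19.SFC
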