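import Pool.Agent.H84.SF.Fin
import Pool.Agent.H64.SC.Api
import Pool.Agent.H27.LV.Curve
import Pool.Agent.H35.SL.DRP

/-!
# MP_70ba79_ag, THEOREM S: from curves in the complement to orbifold curves (ORZ)

Copy of `Pool/Agent/H99/ND/ORB.lean` with `Fin 3` replaced by a finite type and an ideal.
-/

set_option autoImplicit false

namespace Pool.Agent.H19.SFC

open MvPolynomial SC
open Pool.Agent.H27.LV (ge deg poleOrder canDeg pfm pfi)
open Pool.Agent.H84.SF

theorem orz_ord_ge {k K τ : Type} [Field k] [Field K] [Algebra k K] [Fintype τ] (v : DV k K)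
    (x : τ → K) (G : MvPolynomial τ k) (d : ℕ) (hG : G.IsHomogeneous d)
    (h : aeval x G ≠ 0) : -((d : ℤ) * poleOrder v x) ≤ v.ord (aeval x G) := by
  classical
  have he : aeval x G = ∑ m ∈ G.support, algebraMap k K (coeff m G) *
      ∏ i ∈ m.support, x i ^ m i := by
    rw [aeval_def, eval₂_eq]
  rw [he] at h ⊢
  refine v.ord_sum_ge _ _ ?_ h
  intro m hm hne
  have hc : algebraMap k K (coeff m G) ≠ 0 := left_ne_zero_of_mul hne
  have hp : ∏ i ∈ m.support, x i ^ m i ≠ 0 := right_ne_zero_of_mul hne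
  have hi : ∀ i ∈ m.support, x i ^ m i ≠ 0 := Finset.prod_ne_zero_iff.mp hp
  rw [v.ord_mul' hc hp, v.ord_algebraMap, zero_add, v.ord_prod _ _ hi]
  have hd : ∑ i ∈ m.support, m i = d := by
    have h := hG (mem_support_iff.1 hm)
    rw [Finsupp.weight_apply, Finsupp.sum] at h
    simpa using h
  have hb : ∀ i ∈ m.support, -((m i : ℤ) * poleOrder v x) ≤ v.ord (x i ^ m i) := by
    intro i _
    rw [v.ord_pow]
    have h1 : (-(v.ord (x i))).toNat ≤ poleOrder v x :=
      Finset.le_sup (f := fun i => (-(v.ord (x i))).toNat) (Finset.mem_univ i)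
    have h2 : -(poleOrder v x : ℤ) ≤ v.ord (x i) := by omega
    have h3 := mul_le_mul_of_nonneg_left h2 (Int.natCast_nonneg (m i))
    linarith
  have hs := Finset.sum_le_sum hb
  refine le_trans (le_of_eq ?_) hs
  rw [Finset.sum_neg_distrib, ← Finset.sum_mul, ← hd]
  push_cast
  rfl

theorem pf_ORZ : T_ORZ := by
  classical
  rintro k τ _ _ _ _ I G d hd hG ⟨B, N, Ψ, hΨ0, hΨ, h⟩
  refine ⟨2 * B, 2 * B * d + 1, N, Ψ, hΨ0, hΨ, ?_⟩
  intro K _ _ _ htr D hD x S hC hΨx hnc
  obtain ⟨fG, sG⟩ := pfm k K htr (aeval x G)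
  have fP := pfi k K htr τ x
  obtain ⟨T, hT⟩ : ∃ T : Finset (DV k K), T = (fG.union fP).toFinset ∪ S := ⟨_, rfl⟩
  have hT' : ∀ v, v ∉ T → v.ord (aeval x G) = 0 ∧ poleOrder v x = 0 := by
    intro v hv
    rw [hT, Finset.mem_union, Set.Finite.mem_toFinset] at hv
    push Not at hv
    obtain ⟨hv, -⟩ := hv
    simp only [Set.mem_union, Set.mem_ofPred_eq, not_or, not_not] at hv
    exact ⟨hv.1, hv.2⟩
  have eG : ∑ v ∈ T, v.ord (aeval x G) = 0 := by
    rw [← sG, finsum_eq_sum_of_support_subset]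
    intro v hv
    by_contra hcon
    exact hv (hT' v hcon).1
  have eP : deg k x = ∑ v ∈ T, poleOrder v x := by
    unfold deg
    rw [finsum_eq_sum_of_support_subset]
    intro v hv
    by_contra hcon
    exact hv (hT' v hcon).2
  have hge : ∀ v : DV k K, 0 ≤ v.ord (aeval x G) + d * poleOrder v x := by
    intro v
    have := orz_ord_ge v x G d hG hC.ne
    omega
  have hsum : ∑ v ∈ T, (v.ord (aeval x G) + d * (poleOrder v x : ℤ)) = d * (deg k x : ℤ) := by
    rw [Finset.sum_add_distrib, eG, eP, zero_add, ← Finset.mul_sum]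
    push_cast
    rfl
  -- the additional places
  obtain ⟨S2, hS2⟩ : ∃ S2 : Finset (DV k K),
      S2 = T.filter (fun v => v ∉ S ∧ v.ord (aeval x G) ≠ -(d * poleOrder v x)) := ⟨_, rfl⟩
  have hS2m : ∀ v ∈ S2, ((2 * B * d + 1 : ℕ) : ℤ) ≤ v.ord (aeval x G) + d * poleOrder v x := by
    intro v hv
    rw [hS2, Finset.mem_filter] at hv
    rcases hC.off v hv.2.1 with h1 | h1
    · exact absurd h1 hv.2.2
    · omega
  have hcard : ((2 * B * d + 1 : ℕ) : ℤ) * S2.card ≤ d * (deg k x : ℤ) := by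
    rw [← hsum]
    have h1 : ∑ v ∈ S2, (v.ord (aeval x G) + d * (poleOrder v x : ℤ)) ≤
        ∑ v ∈ T, (v.ord (aeval x G) + d * (poleOrder v x : ℤ)) := by
      refine Finset.sum_le_sum_of_subset_of_nonneg ?_ fun v _ _ => hge v
      rw [hS2]
      exact Finset.filter_subset _ _
    have h2 := Finset.card_nsmul_le_sum S2
      (fun v => v.ord (aeval x G) + d * (poleOrder v x : ℤ)) _ hS2m
    rw [nsmul_eq_mul, mul_comm] at h2
    exact h2.trans h1
  have hcrv : CrI I G d x (S ∪ S2) := by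
    refine ⟨hC.on, hC.one, hC.ne, fun v hv => ?_⟩
    by_cases hvT : v ∈ T
    · by_contra hcon
      apply hv
      rw [Finset.mem_union]
      by_cases hvS : v ∈ S
      · exact Or.inl hvS
      · right
        rw [hS2, Finset.mem_filter]
        exact ⟨hvT, hvS, hcon⟩
    · obtain ⟨h1, h2⟩ := hT' v hvT
      rw [h1, h2]
      simp
  obtain ⟨-, hdeg⟩ := h K htr D hD x (S ∪ S2) hcrv hΨx hnc
  have hcu : (((S ∪ S2).card : ℕ) : ℤ) ≤ S.card + S2.card := by
    exact_mod_cast Finset.card_union_le S S2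
  -- the degree is positive
  have hpole : ∃ v : DV k K, 1 ≤ poleOrder v x := by
    obtain ⟨i, hi⟩ := hnc
    by_contra hcon
    push Not at hcon
    apply hi
    refine Pool.Agent.H35.SL.const_of htr fun v => ?_
    have h1 := hcon v
    have h2 : (-(v.ord (x i))).toNat ≤ poleOrder v x := by
      unfold poleOrder
      exact Finset.le_sup (f := fun i => (-(v.ord (x i))).toNat) (Finset.mem_univ i)
    right
    omega
  have hdeg1 : 1 ≤ deg k x := by
    obtain ⟨v, hv⟩ := hpole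
    refine hv.trans ?_
    unfold deg
    exact single_le_finsum v fP fun _ => Nat.zero_le _
  have hdeg1' : (1 : ℤ) ≤ deg k x := by exact_mod_cast hdeg1
  obtain ⟨χ, hχ⟩ : ∃ χ : ℤ, χ = canDeg D + S.card := ⟨_, rfl⟩
  obtain ⟨g, hg⟩ : ∃ g : ℤ, g = deg k x := ⟨_, rfl⟩
  obtain ⟨s, hs⟩ : ∃ s : ℤ, s = S2.card := ⟨_, rfl⟩
  obtain ⟨b, hb⟩ : ∃ b : ℤ, b = B := ⟨_, rfl⟩
  obtain ⟨e, he⟩ : ∃ e : ℤ, e = d := ⟨_, rfl⟩
  have hb0 : 0 ≤ b := by rw [hb]; exact Int.natCast_nonneg _
  have he0 : 0 ≤ e := by rw [he]; exact Int.natCast_nonneg _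
  have h1 : g ≤ b * (χ + s) := by
    rw [hg, hb, hχ, hs]
    refine hdeg.trans ?_
    refine mul_le_mul_of_nonneg_left ?_ (Int.natCast_nonneg _)
    linarith
  have h2 : (2 * b * e + 1) * s ≤ e * g := by
    rw [hg, hb, he, hs]
    have := hcard
    push_cast at this
    exact this
  have hg1 : 1 ≤ g := by rw [hg]; exact hdeg1'
  have hm0 : 0 < 2 * b * e + 1 := by positivity
  have h3 : (2 * b * e + 1) * g ≤ b * ((2 * b * e + 1) * χ) + b * (e * g) := by
    have h4 := mul_le_mul_of_nonneg_left h1 hm0.le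
    have h5 := mul_le_mul_of_nonneg_left h2 hb0
    have h6 : (2 * b * e + 1) * (b * (χ + s)) =
        b * ((2 * b * e + 1) * χ) + b * ((2 * b * e + 1) * s) := by ring
    rw [h6] at h4
    linarith
  have h7 : (2 * b * e + 1) * g ≤ (2 * b * e + 1) * (2 * b * χ) := by
    have h8 : (2 * b * e + 1) * (2 * b * χ) = 2 * (b * ((2 * b * e + 1) * χ)) := by ring
    have h9 : (2 * b * e + 1) * g = 2 * (b * (e * g)) + g := by ring
    rw [h8]
    linarith
  have h10 : g ≤ 2 * b * χ := le_of_mul_le_mul_left h7 hm0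
  have h11 : 1 ≤ χ := by
    by_contra hcon
    have h12 : χ ≤ 0 := by omega
    have h13 : 2 * b * χ ≤ 0 := mul_nonpos_of_nonneg_of_nonpos (by positivity) h12
    omega
  rw [← hχ, ← hg]
  refine ⟨h11, ?_⟩
  rw [hb] at h10
  push_cast
  exact h10

end Pool.Agent.H19.SFC
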